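import Mathlib
import Pool.Agent.H28.KyFan

namespace Pool.Agent.Results.MP_30f82a_an.KyFanFails

open Pool.Agent.H28.KyFan

theorem result : ∃ (n : ℕ) (A B : Matrix (Fin n) (Fin n) ℂ) (k : ℕ),
    A.IsHermitian ∧ B.IsHermitian ∧ 1 ≤ k ∧ k ≤ n ∧
    2 * ∑ i ∈ Finset.range k, sv A i * sv (mR B) i < kyFan k (mL A B) := by
  refine ⟨15, cx A0, cx B0, 15, hA, hB, by norm_num, le_rfl, ?_⟩
  have h : ∑ i ∈ Finset.range 15, sv (cx A0) i * sv (mR (cx B0)) i = kyFan 15 (mR (cx B0)) :=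
    Finset.sum_congr rfl fun i hi => by
      rw [sv_unit _ hAA i (Finset.mem_range.1 hi), one_mul]
  rw [h, kyR]
  linarith [kyL]

end Pool.Agent.Results.MP_30f82a_an.KyFanFails
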